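import Pool.Agent.helper57.refl.Defs

/-!
# Upper bound side for MP_d63fc1_co: checkable simple polygons, points in the interior of the hull,
and the assembly of the counterexample modulo data
-/

namespace Pool.Agent.H57.Refl

open Set

/-- integer point as a real point -/
def toR (p : ℤ × ℤ) : ℝ × ℝ := ((p.1 : ℝ), (p.2 : ℝ))

lemma toR_injective : Function.Injective toR := by
  intro p q h
  simp only [toR, Prod.mk.injEq, Int.cast_inj] at h
  exact Prod.ext h.1 h.2

lemma det3_toR (a b c : ℤ × ℤ) : det3 (toR a) (toR b) (toR c) = (detZ a b c : ℝ) := by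
  simp [det3, detZ, toR]

lemma det3_affine (a b p q : ℝ × ℝ) (s t : ℝ) (hst : s + t = 1) :
    det3 a b (s • p + t • q) = s * det3 a b p + t * det3 a b q := by
  have hs : s = 1 - t := by linarith
  subst hs
  simp only [det3, Prod.fst_add, Prod.snd_add, Prod.smul_fst, Prod.smul_snd, smul_eq_mul]
  ring

lemma det3_left (a b : ℝ × ℝ) : det3 a b a = 0 := by simp [det3]
lemma det3_right (a b : ℝ × ℝ) : det3 a b b = 0 := by simp only [det3]; ring
lemma det3_cycle (a b c : ℝ × ℝ) : det3 b c a = det3 a b c := by simp only [det3]; ring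

lemma det3_segment {a b x : ℝ × ℝ} (hx : x ∈ segment ℝ a b) : det3 a b x = 0 := by
  obtain ⟨s, t, hs, ht, hst, rfl⟩ := hx
  rw [det3_affine _ _ _ _ _ _ hst, det3_left, det3_right]; ring

lemma det3_pos_segment {a b c d x : ℝ × ℝ} (hx : x ∈ segment ℝ c d) (hc : 0 < det3 a b c)
    (hd : 0 < det3 a b d) : 0 < det3 a b x := by
  obtain ⟨s, t, hs, ht, hst, rfl⟩ := hx
  rw [det3_affine _ _ _ _ _ _ hst]
  rcases hs.eq_or_lt with h | h
  · subst h
    have : t = 1 := by linarith
    subst this; linarith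
  · have := mul_pos h hc
    have := mul_nonneg ht hd.le
    linarith

lemma det3_neg_segment {a b c d x : ℝ × ℝ} (hx : x ∈ segment ℝ c d) (hc : det3 a b c < 0)
    (hd : det3 a b d < 0) : det3 a b x < 0 := by
  obtain ⟨s, t, hs, ht, hst, rfl⟩ := hx
  rw [det3_affine _ _ _ _ _ _ hst]
  rcases hs.eq_or_lt with h | h
  · subst h
    have : t = 1 := by linarith
    subst this; linarith
  · have := mul_neg_of_pos_of_neg h hc
    have := mul_nonpos_of_nonneg_of_nonpos ht hd.le
    linarith

/-- adjacent edges meet in their common end point only -/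
lemma adj_inter {a b c x : ℝ × ℝ} (h : det3 a b c ≠ 0) (h1 : x ∈ segment ℝ a b)
    (h2 : x ∈ segment ℝ b c) : x = b := by
  have h3 := det3_segment h1
  obtain ⟨s, t, hs, ht, hst, rfl⟩ := h2
  rw [det3_affine _ _ _ _ _ _ hst, det3_right, mul_zero, zero_add] at h3
  have h4 : t = 0 := by
    rcases mul_eq_zero.mp h3 with h | h'
    · exact h
    · exact absurd h' h
  have h5 : s = 1 := by linarith
  rw [h4, h5]; simp

/-- separation check -/
def sepB (a b c d : ℤ × ℤ) : Bool :=
  (decide (0 < detZ a b c) && decide (0 < detZ a b d)) ||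
  ((decide (detZ a b c < 0) && decide (detZ a b d < 0)) ||
  ((decide (0 < detZ c d a) && decide (0 < detZ c d b)) ||
   (decide (detZ c d a < 0) && decide (detZ c d b < 0))))

lemma sepB_spec {a b c d : ℤ × ℤ} (h : sepB a b c d = true) {x : ℝ × ℝ}
    (h1 : x ∈ segment ℝ (toR a) (toR b)) (h2 : x ∈ segment ℝ (toR c) (toR d)) : False := by
  have e1 := det3_segment h1
  have e2 := det3_segment h2
  simp only [sepB, Bool.or_eq_true, Bool.and_eq_true, decide_eq_true_eq] at h
  rcases h with h | h | h | h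
  · have := det3_pos_segment (a := toR a) (b := toR b) h2 (by rw [det3_toR]; exact_mod_cast h.1)
      (by rw [det3_toR]; exact_mod_cast h.2)
    linarith
  · have := det3_neg_segment (a := toR a) (b := toR b) h2 (by rw [det3_toR]; exact_mod_cast h.1)
      (by rw [det3_toR]; exact_mod_cast h.2)
    linarith
  · have := det3_pos_segment (a := toR c) (b := toR d) h1 (by rw [det3_toR]; exact_mod_cast h.1)
      (by rw [det3_toR]; exact_mod_cast h.2)
    linarith
  · have := det3_neg_segment (a := toR c) (b := toR d) h1 (by rw [det3_toR]; exact_mod_cast h.1)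
      (by rw [det3_toR]; exact_mod_cast h.2)
    linarith

/-- criterion for simple polygons with integer vertices -/
theorem isSimplePolygon_of_check (k : ℕ) [NeZero k] (g : Fin k → ℤ × ℤ) (hk : 3 ≤ k)
    (hinj : Function.Injective g)
    (hdet : ∀ i : Fin k, detZ (g i) (g (i + 1)) (g (i + 1 + 1)) ≠ 0)
    (hsep : ∀ i j : Fin k, j ≠ i → j ≠ i + 1 → j + 1 ≠ i →
      sepB (g i) (g (i + 1)) (g j) (g (j + 1)) = true) :
    IsSimplePolygon k (fun i => toR (g i)) := by
  refine ⟨hk, fun i j h => hinj (toR_injective h), ?_⟩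
  have key : ∀ i : Fin k, ∀ x, x ∈ segment ℝ (toR (g i)) (toR (g (i + 1))) →
      x ∈ segment ℝ (toR (g (i + 1))) (toR (g (i + 1 + 1))) → x = toR (g (i + 1)) := by
    intro i x h1 h2
    refine adj_inter ?_ h1 h2
    rw [det3_toR]
    exact_mod_cast hdet i
  rintro i j hij x ⟨h1, h2⟩
  by_cases hj1 : j = i + 1
  · subst hj1
    have := key i x h1 h2
    rw [this]; simp
  by_cases hj2 : j + 1 = i
  · subst hj2
    have := key j x h2 h1
    rw [this]; simp
  exact (sepB_spec (hsep i j (Ne.symm hij) hj1 hj2) h1 h2).elim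

/-! ### checks on lists -/

/-- `i`-th vertex -/
def ptL (L : List (ℤ × ℤ)) (i : ℕ) : ℤ × ℤ := L.getD i (0, 0)

/-- the list is the vertex list of a simple polygon -/
def polyB (L : List (ℤ × ℤ)) : Bool :=
  decide (3 ≤ L.length) && (decide L.Nodup && ((List.range L.length).all (fun i =>
    !(decide (detZ (ptL L i) (ptL L ((i + 1) % L.length)) (ptL L ((i + 2) % L.length)) = 0)) &&
    (List.range L.length).all (fun j => (j == i || j == (i + 1) % L.length) ||
      ((j + 1) % L.length == i ||
        sepB (ptL L i) (ptL L ((i + 1) % L.length)) (ptL L j) (ptL L ((j + 1) % L.length)))))))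

/-- twice the signed area -/
def area2Z (L : List (ℤ × ℤ)) : ℤ :=
  ((List.range L.length).map fun i =>
    (ptL L i).1 * (ptL L ((i + 1) % L.length)).2 - (ptL L ((i + 1) % L.length)).1 * (ptL L i).2).sum

/-- number of right turns -/
def reflZ (L : List (ℤ × ℤ)) : ℕ :=
  (List.range L.length).countP fun i =>
    decide (detZ (ptL L ((L.length - 1 + i) % L.length)) (ptL L i) (ptL L ((i + 1) % L.length)) < 0)

/-- the point set of a list -/
def setL (L : List (ℤ × ℤ)) : Set (ℝ × ℝ) := {x | ∃ p ∈ L, x = toR p}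

section
variable {L : List (ℤ × ℤ)} (h : polyB L = true)
include h

lemma polyB_length : 3 ≤ L.length := by
  simp only [polyB, Bool.and_eq_true, decide_eq_true_eq] at h
  exact h.1

lemma polyB_nodup : L.Nodup := by
  simp only [polyB, Bool.and_eq_true, decide_eq_true_eq] at h
  exact h.2.1

end

lemma ptL_eq (L : List (ℤ × ℤ)) {i : ℕ} (hi : i < L.length) : ptL L i = L[i] := by
  simp [ptL, hi]

lemma fin_val_add_one {k : ℕ} [NeZero k] (hk : 3 ≤ k) (i : Fin k) :
    (i + 1 : Fin k).val = (i.val + 1) % k := by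
  have h1 : (1 : Fin k).val = 1 := by
    rw [Fin.val_one']
    exact Nat.mod_eq_of_lt (by omega)
  rw [Fin.val_add, h1]

lemma fin_val_sub_one {k : ℕ} [NeZero k] (hk : 3 ≤ k) (i : Fin k) :
    (i - 1 : Fin k).val = (k - 1 + i.val) % k := by
  have h1 : (1 : Fin k).val = 1 := by
    rw [Fin.val_one']
    exact Nat.mod_eq_of_lt (by omega)
  rw [Fin.val_sub, h1]

theorem polyB_simple {L : List (ℤ × ℤ)} (h : polyB L = true) (hz : NeZero L.length) :
    IsSimplePolygon L.length (fun i => toR (ptL L i.val)) := by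
  have hk := polyB_length h
  have hnd := polyB_nodup h
  simp only [polyB, Bool.and_eq_true, decide_eq_true_eq, List.all_eq_true, List.mem_range] at h
  obtain ⟨-, -, h⟩ := h
  have v1 : ∀ i : Fin L.length, (i + 1 : Fin L.length).val = (i.val + 1) % L.length :=
    fin_val_add_one hk
  have v2 : ∀ i : Fin L.length, (i + 1 + 1 : Fin L.length).val = (i.val + 2) % L.length := by
    intro i
    rw [v1, v1, Nat.mod_add_mod]
  refine isSimplePolygon_of_check L.length (fun i => ptL L i.val) hk ?_ ?_ ?_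
  · intro i j hij
    simp only [ptL_eq L i.2, ptL_eq L j.2] at hij
    exact Fin.ext ((List.Nodup.getElem_inj_iff hnd).mp hij)
  · intro i
    have h1 := (h i.val i.2).1
    rw [v1, v2]
    simpa using h1
  · intro i j h1 h2 h3
    have h4 := (h i.val i.2).2 j.val j.2
    rw [v1, v1]
    simp only [Bool.or_eq_true, beq_iff_eq] at h4
    rcases h4 with (h4 | h4) | h4 | h4
    · exact absurd (Fin.ext h4) h1
    · refine absurd (Fin.ext ?_) h2
      rw [v1]; exact h4
    · refine absurd (Fin.ext ?_) h3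
      rw [v1]; exact h4
    · exact h4

lemma area2_eq {L : List (ℤ × ℤ)} (hk : 3 ≤ L.length) (hz : NeZero L.length) :
    area2 L.length (fun i => toR (ptL L i.val)) = (area2Z L : ℝ) := by
  have v1 : ∀ i : Fin L.length, (i + 1 : Fin L.length).val = (i.val + 1) % L.length :=
    fin_val_add_one hk
  have h1 : area2 L.length (fun i => toR (ptL L i.val)) = ∑ i : Fin L.length,
      (fun i : ℕ => (((ptL L i).1 * (ptL L ((i + 1) % L.length)).2 -
        (ptL L ((i + 1) % L.length)).1 * (ptL L i).2 : ℤ) : ℝ)) i.val := by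
    unfold area2
    refine Finset.sum_congr rfl fun i _ => ?_
    simp only [v1, toR]
    push_cast
    ring
  rw [h1, Fin.sum_univ_def]
  unfold area2Z
  rw [← List.map_coe_finRange_eq_range, List.map_map]
  have h2 := map_list_sum (Int.castRingHom ℝ) (List.map ((fun i =>
      (ptL L i).1 * (ptL L ((i + 1) % L.length)).2 - (ptL L ((i + 1) % L.length)).1 * (ptL L i).2) ∘
        fun x : Fin L.length => ↑x) (List.finRange L.length))
  rw [eq_intCast, List.map_map] at h2
  rw [h2]
  rfl

lemma reflexCount_eq {L : List (ℤ × ℤ)} (hk : 3 ≤ L.length) (hz : NeZero L.length)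
    (ha : 0 < area2Z L) :
    reflexCount L.length (fun i => toR (ptL L i.val)) = reflZ L := by
  classical
  have v1 : ∀ i : Fin L.length, (i + 1 : Fin L.length).val = (i.val + 1) % L.length :=
    fin_val_add_one hk
  have v2 : ∀ i : Fin L.length, (i - 1 : Fin L.length).val = (L.length - 1 + i.val) % L.length :=
    fin_val_sub_one hk
  have ha' : 0 < area2 L.length (fun i => toR (ptL L i.val)) := by
    rw [area2_eq hk hz]; exact_mod_cast ha
  unfold reflexCount
  rw [if_pos ha']
  have h1 : (Finset.univ.filter fun i : Fin L.length =>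
      det3 (toR (ptL L (i - 1 : Fin L.length).val)) (toR (ptL L i.val))
        (toR (ptL L (i + 1 : Fin L.length).val)) < 0) =
      Finset.univ.filter fun i : Fin L.length =>
        (fun i : ℕ => decide (detZ (ptL L ((L.length - 1 + i) % L.length)) (ptL L i)
          (ptL L ((i + 1) % L.length)) < 0)) i.val = true := by
    refine Finset.filter_congr fun i _ => ?_
    rw [v1, v2, det3_toR]
    simp only [decide_eq_true_eq]
    norm_cast
  rw [h1]
  unfold reflZ
  rw [← List.map_coe_finRange_eq_range, List.countP_map]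
  rw [Finset.card_def, Finset.filter_val, ← Multiset.countP_eq_card_filter]
  have h3 : (Finset.univ : Finset (Fin L.length)).val = ((List.finRange L.length : List (Fin L.length)) : Multiset _) := by
    rw [Fin.univ_def]
  rw [h3, Multiset.coe_countP]
  congr 1
  funext i
  simp

lemma range_setL {L : List (ℤ × ℤ)} :
    Set.range (fun i : Fin L.length => toR (ptL L i.val)) = setL L := by
  ext x
  constructor
  · rintro ⟨i, rfl⟩
    exact ⟨_, by rw [ptL_eq L i.2]; exact List.getElem_mem i.2, rfl⟩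
  · rintro ⟨p, hp, rfl⟩
    obtain ⟨i, hi, rfl⟩ := List.getElem_of_mem hp
    exact ⟨⟨i, hi⟩, by simp [ptL_eq L hi]⟩

theorem rho_le {L : List (ℤ × ℤ)} (h : polyB L = true) (ha : 0 < area2Z L) :
    rho (setL L) ≤ reflZ L := by
  have hk := polyB_length h
  have hz : NeZero L.length := ⟨by omega⟩
  refine Nat.sInf_le ⟨L.length, hz, _, polyB_simple h hz, range_setL, ?_⟩
  exact (reflexCount_eq hk hz ha).symm

theorem le_rho {L : List (ℤ × ℤ)} (h : polyB L = true) {r : ℕ}
    (hr : ∀ (m : ℕ) [NeZero m] (f : Fin m → ℝ × ℝ), IsSimplePolygon m f → Set.range f = setL L →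
      r ≤ reflexCount m f) : r ≤ rho (setL L) := by
  have hk := polyB_length h
  have hz : NeZero L.length := ⟨by omega⟩
  refine le_csInf ⟨_, L.length, hz, _, polyB_simple h hz, range_setL, rfl⟩ ?_
  rintro k ⟨n, hn, f, h1, h2, rfl⟩
  exact hr n f h1 h2

/-- strict interior of a triangle -/
lemma mem_interior_of_det {P : Set (ℝ × ℝ)} {a b c q : ℝ × ℝ} (ha : a ∈ P) (hb : b ∈ P) (hc : c ∈ P)
    (h1 : 0 < det3 a b q) (h2 : 0 < det3 b c q) (h3 : 0 < det3 c a q) :
    q ∈ interior (convexHull ℝ P) := by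
  have hcont : ∀ u v : ℝ × ℝ, Continuous (fun x => det3 u v x) := by
    intro u v
    unfold det3
    fun_prop
  set U : Set (ℝ × ℝ) := {x | 0 < det3 a b x ∧ 0 < det3 b c x ∧ 0 < det3 c a x} with hU
  have hUo : IsOpen U :=
    (isOpen_lt continuous_const (hcont a b)).inter
      ((isOpen_lt continuous_const (hcont b c)).inter (isOpen_lt continuous_const (hcont c a)))
  refine mem_interior.mpr ⟨U, ?_, hUo, ⟨h1, h2, h3⟩⟩
  rintro x ⟨e1, e2, e3⟩
  set D := det3 a b c with hD
  have hsum : det3 b c x + det3 c a x + det3 a b x = D := by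
    rw [hD]; simp only [det3]; ring
  have hDpos : 0 < D := by rw [← hsum]; linarith
  have hx : x = (det3 b c x / D) • a + (det3 c a x / D) • b + (det3 a b x / D) • c := by
    have hD0 : D ≠ 0 := hDpos.ne'
    ext
    · simp only [Prod.fst_add, Prod.smul_fst, smul_eq_mul]
      field_simp
      rw [hD]; simp only [det3]; ring
    · simp only [Prod.snd_add, Prod.smul_snd, smul_eq_mul]
      field_simp
      rw [hD]; simp only [det3]; ring
  have hconv := convex_convexHull ℝ P
  have ha' := subset_convexHull ℝ P ha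
  have hb' := subset_convexHull ℝ P hb
  have hc' := subset_convexHull ℝ P hc
  have := hconv.sum_mem (t := (Finset.univ : Finset (Fin 3)))
    (w := ![det3 b c x / D, det3 c a x / D, det3 a b x / D]) (z := ![a, b, c])
    (by
      intro i _
      fin_cases i <;> simp <;> positivity)
    (by
      simp only [Fin.sum_univ_three, Matrix.cons_val_zero, Matrix.cons_val_one, Matrix.cons_val]
      rw [← add_div, ← add_div, hsum, div_self hDpos.ne'])
    (by
      intro i _
      fin_cases i <;> simp <;> assumption)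
  simp only [Fin.sum_univ_three, Matrix.cons_val_zero, Matrix.cons_val_one, Matrix.cons_val] at this
  rw [hx]
  exact this

/-- integer check for a Steiner point: it is strictly inside a triangle with corners in `H` -/
def inB (H : List (ℤ × ℤ)) (q : ℤ × ℤ) : Bool :=
  H.any fun a => H.any fun b => H.any fun c =>
    (decide (0 < detZ a b q) && (decide (0 < detZ b c q) && decide (0 < detZ c a q)))

lemma inB_spec {H : List (ℤ × ℤ)} {q : ℤ × ℤ} (h : inB H q = true) {P : Set (ℝ × ℝ)}
    (hH : ∀ a ∈ H, toR a ∈ P) : toR q ∈ interior (convexHull ℝ P) := by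
  simp only [inB, List.any_eq_true, Bool.and_eq_true, decide_eq_true_eq] at h
  obtain ⟨a, ha, b, hb, c, hc, h1, h2, h3⟩ := h
  refine mem_interior_of_det (hH a ha) (hH b hb) (hH c hc) ?_ ?_ ?_ <;>
  · rw [det3_toR]; exact_mod_cast (by assumption)

lemma not_collinear_of_det {P : Set (ℝ × ℝ)} {a b c : ℝ × ℝ} (ha : a ∈ P) (hb : b ∈ P) (hc : c ∈ P)
    (h : det3 a b c ≠ 0) : ¬ Collinear ℝ P := by
  intro hcol
  rw [collinear_iff_of_mem ha] at hcol
  obtain ⟨v, hv⟩ := hcol
  obtain ⟨s, hs⟩ := hv b hb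
  obtain ⟨t, ht⟩ := hv c hc
  apply h
  rw [hs, ht]
  simp only [det3, vadd_eq_add, Prod.fst_add, Prod.snd_add, Prod.smul_fst, Prod.smul_snd, smul_eq_mul]
  ring

/-- all the finite checks, besides the lower bound: `LP` a polygon on `P`, `LQ` a polygon on `P ∪ S`, `LS` the
Steiner points, `H` a list of hull points of `P`. -/
def dataB (LP LQ LS H : List (ℤ × ℤ)) : Bool :=
  polyB LP && (polyB LQ && (decide (0 < area2Z LQ) && (decide (reflZ LQ ≤ 2) &&
  (LQ.all (fun x => LP.contains x || LS.contains x) && (LP.all (fun x => LQ.contains x) &&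
  (LS.all (fun x => LQ.contains x && (!(LP.contains x) && inB H x)) &&
  H.all (fun x => LP.contains x)))))))

/-- assembly modulo data -/
theorem assemble (LP LQ LS H : List (ℤ × ℤ)) (hdata : dataB LP LQ LS H = true)
    (hlow : ∀ (m : ℕ) [NeZero m] (f : Fin m → ℝ × ℝ), IsSimplePolygon m f → Set.range f = setL LP →
      5 ≤ reflexCount m f) :
    ∃ P S : Finset (ℝ × ℝ), 3 ≤ P.card ∧ ¬ Collinear ℝ (P : Set (ℝ × ℝ)) ∧ Disjoint P S ∧
      (∀ q ∈ S, q ∈ interior (convexHull ℝ (P : Set (ℝ × ℝ)))) ∧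
      (rho (↑(P ∪ S)) : ℝ) < (rho ↑P : ℝ) / 2 := by
  simp only [dataB, Bool.and_eq_true, decide_eq_true_eq, List.all_eq_true, Bool.or_eq_true,
    List.contains_iff_mem, Bool.not_eq_true', Bool.eq_false_iff, ne_eq] at hdata
  obtain ⟨hP, hQ, hQa, hQr, h1, h2, h3, h4⟩ := hdata
  refine ⟨(LP.map toR).toFinset, (LS.map toR).toFinset, ?_, ?_, ?_, ?_, ?_⟩
  · rw [List.toFinset_card_of_nodup ((polyB_nodup hP).map toR_injective), List.length_map]
    exact polyB_length hP
  · have hk := polyB_length hP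
    have h5 := hP
    simp only [polyB, Bool.and_eq_true, decide_eq_true_eq, List.all_eq_true, List.mem_range] at h5
    have h6 := (h5.2.2 0 (by omega)).1
    simp only [Bool.not_eq_true', decide_eq_false_iff_not, zero_add] at h6
    have hm : ∀ i, ptL LP (i % LP.length) ∈ LP := by
      intro i
      have hi : i % LP.length < LP.length := Nat.mod_lt _ (by omega)
      rw [ptL_eq LP hi]; exact List.getElem_mem hi
    have hm' : ∀ i, toR (ptL LP (i % LP.length)) ∈ (((LP.map toR).toFinset : Finset (ℝ × ℝ)) : Set (ℝ × ℝ)) := by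
      intro i
      simp only [List.coe_toFinset, List.mem_map, Set.mem_ofPred_eq]
      exact ⟨_, hm i, rfl⟩
    have h0 := hm' 0
    rw [Nat.zero_mod] at h0
    refine not_collinear_of_det h0 (hm' 1) (hm' 2) ?_
    rw [det3_toR]
    exact_mod_cast h6
  · rw [Finset.disjoint_left]
    intro x hx hx'
    simp only [List.mem_toFinset, List.mem_map] at hx hx'
    obtain ⟨p, hp, rfl⟩ := hx
    obtain ⟨q, hq, hqp⟩ := hx'
    have := toR_injective hqp
    subst this
    exact (h3 q hq).2.1 hp
  · intro x hx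
    simp only [List.mem_toFinset, List.mem_map] at hx
    obtain ⟨q, hq, rfl⟩ := hx
    refine inB_spec (h3 q hq).2.2 fun a ha => ?_
    simp only [List.coe_toFinset, List.mem_map, Set.mem_ofPred_eq]
    exact ⟨a, h4 a ha, rfl⟩
  · have e1 : (((LP.map toR).toFinset : Finset (ℝ × ℝ)) : Set (ℝ × ℝ)) = setL LP := by
      ext x
      simp only [List.coe_toFinset, List.mem_map, Set.mem_ofPred_eq, setL]
      exact ⟨fun ⟨p, hp, h⟩ => ⟨p, hp, h.symm⟩, fun ⟨p, hp, h⟩ => ⟨p, hp, h.symm⟩⟩
    have e2 : ((((LP.map toR).toFinset ∪ (LS.map toR).toFinset : Finset (ℝ × ℝ))) : Set (ℝ × ℝ)) = setL LQ := by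
      ext x
      simp only [Finset.coe_union, List.coe_toFinset, List.mem_map, Set.mem_ofPred_eq, setL, Set.mem_union]
      constructor
      · rintro (⟨p, hp, rfl⟩ | ⟨p, hp, rfl⟩)
        · exact ⟨p, h2 p hp, rfl⟩
        · exact ⟨p, (h3 p hp).1, rfl⟩
      · rintro ⟨p, hp, rfl⟩
        rcases h1 p hp with h | h
        · exact Or.inl ⟨p, h, rfl⟩
        · exact Or.inr ⟨p, h, rfl⟩
    rw [e1, e2]
    have h5 : rho (setL LQ) ≤ 2 := (rho_le hQ hQa).trans hQr
    have h6 : 5 ≤ rho (setL LP) := le_rho hP hlow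
    have h7 : (rho (setL LQ) : ℝ) ≤ 2 := by exact_mod_cast h5
    have h8 : (5 : ℝ) ≤ (rho (setL LP) : ℝ) := by exact_mod_cast h6
    linarith

/-- the index form of the point set used in the lower bound -/
def idxB (n : ℕ) (pts : ℕ → ℤ × ℤ) (LP : List (ℤ × ℤ)) : Bool :=
  (List.range n).all (fun i => LP.contains (pts i)) && LP.all (fun p => (List.range n).any fun i => pts i == p)

lemma setL_eq_of_idxB {n : ℕ} {pts : ℕ → ℤ × ℤ} {LP : List (ℤ × ℤ)} (h : idxB n pts LP = true) :
    setL LP = {x | ∃ i < n, x = (((pts i).1 : ℝ), ((pts i).2 : ℝ))} := by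
  simp only [idxB, Bool.and_eq_true, List.all_eq_true, List.mem_range, List.contains_iff_mem,
    List.any_eq_true, beq_iff_eq] at h
  ext x
  constructor
  · rintro ⟨p, hp, rfl⟩
    obtain ⟨i, hi, rfl⟩ := h.2 p hp
    exact ⟨i, hi, rfl⟩
  · rintro ⟨i, hi, rfl⟩
    exact ⟨pts i, h.1 i hi, rfl⟩

/-- assembly modulo data, with the lower bound in the form of `five_le_reflexCount` -/
theorem assemble_idx (n : ℕ) (pts : ℕ → ℤ × ℤ) (LP LQ LS H : List (ℤ × ℤ))
    (hdata : dataB LP LQ LS H = true) (hidx : idxB n pts LP = true)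
    (hlow : ∀ (m : ℕ) [NeZero m] (f : Fin m → ℝ × ℝ), IsSimplePolygon m f →
      Set.range f = {x | ∃ i < n, x = (((pts i).1 : ℝ), ((pts i).2 : ℝ))} → 5 ≤ reflexCount m f) :
    ∃ P S : Finset (ℝ × ℝ), 3 ≤ P.card ∧ ¬ Collinear ℝ (P : Set (ℝ × ℝ)) ∧ Disjoint P S ∧
      (∀ q ∈ S, q ∈ interior (convexHull ℝ (P : Set (ℝ × ℝ)))) ∧
      (rho (↑(P ∪ S)) : ℝ) < (rho ↑P : ℝ) / 2 :=
  assemble LP LQ LS H hdata fun m _ f h1 h2 => hlow m f h1 (h2.trans (setL_eq_of_idxB hidx))

/-- general position check -/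
def gpB (n : ℕ) (pts : ℕ → ℤ × ℤ) : Bool :=
  (List.range n).all fun a => (List.range n).all fun b => (List.range n).all fun c =>
    (a == b || (a == c || b == c)) || !(decide (detZ (pts a) (pts b) (pts c) = 0))

lemma gpB_spec {n : ℕ} {pts : ℕ → ℤ × ℤ} (h : gpB n pts = true) :
    ∀ a b c, a < n → b < n → c < n → a ≠ b → a ≠ c → b ≠ c → detZ (pts a) (pts b) (pts c) ≠ 0 := by
  intro a b c ha hb hc h1 h2 h3
  simp only [gpB, List.all_eq_true, List.mem_range, Bool.or_eq_true, beq_iff_eq, Bool.not_eq_true',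
    decide_eq_false_iff_not] at h
  rcases h a ha b hb c hc with (h | h | h) | h
  · exact absurd h h1
  · exact absurd h h2
  · exact absurd h h3
  · exact h

end Pool.Agent.H57.Refl
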